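import Pool.Agent.H8.Alt.Moufang
import Mathlib.Data.Nat.Bitwise

/-!
# A verified checker for Lie-ternary identities in alternative rings with `2 = 0`

Elements are encoded as lists of indices of basis words, packed as numbers in base `4096` with
digits `index + 1`.  Rows are xor-masks, shifted by 64 bits; the lower 64 bits carry no meaning.
All functions are written with raw recursors so that the kernel evaluates them quickly.
-/

namespace H8Alt.C2

/-- search trees with keys `k`, values `v` and certificates `c` -/
inductive TT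
  | lf : TT
  | nd (l : TT) (k v c : ℕ) (r : TT) : TT

/-- syntactic trees -/
inductive Tr
  | l (i : ℕ) : Tr
  | c (s t : Tr) : Tr
  | a (s t u : Tr) : Tr

/-- root nodes -/
inductive RT
  | c (s t : Tr) : RT
  | a (s t u : Tr) : RT
  | p (s t : Tr) : RT

/-- trees of schema instances: index, schema number, arguments, row -/
inductive IT
  | lf : IT
  | nd (l : IT) (i s : ℕ) (args : List ℕ) (row : ℕ) (r : IT) : IT

/-- encoded bind: `0` is failure, `n+1` is the value `n` -/
noncomputable def nb (x : ℕ) (f : ℕ → ℕ) : ℕ :=
  Nat.rec (motive := fun _ => ℕ) 0 (fun n _ => f n) x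

noncomputable def find (x : ℕ) (t : TT) : ℕ :=
  TT.rec (motive := fun _ => ℕ) 0
    (fun _ k v _ _ fl fr =>
      Bool.rec (motive := fun _ => ℕ)
        (Bool.rec (motive := fun _ => ℕ) v fr (Nat.ble (Nat.succ k) x)) fl
        (Nat.ble (Nat.succ x) k)) t

noncomputable def findI (x : ℕ) (t : IT) : ℕ :=
  IT.rec (motive := fun _ => ℕ) 0
    (fun _ i _ _ row _ fl fr =>
      Bool.rec (motive := fun _ => ℕ)
        (Bool.rec (motive := fun _ => ℕ) (Nat.succ row) fr (Nat.ble (Nat.succ i) x)) fl
        (Nat.ble (Nat.succ x) i)) t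

/-- loop over the digits of a packed list (encoded), threading an encoded accumulator -/
noncomputable def loopD (f : ℕ → ℕ → ℕ) (fuel : ℕ) : ℕ → ℕ → ℕ :=
  Nat.rec (motive := fun _ => ℕ → ℕ → ℕ) (fun _ _ => 0)
    (fun _ ih L1 acc1 =>
      nb L1 fun L =>
        Bool.rec (motive := fun _ => ℕ)
          (nb (Nat.succ (Nat.pred (Nat.mod L 4096))) fun i =>
            nb (f i acc1) fun a => ih (Nat.succ (Nat.div L 4096)) (Nat.succ a))
          acc1 (Nat.beq L 0)) fuel

/-- loop with the standard fuel -/
noncomputable def loopR (f : ℕ → ℕ → ℕ) (L acc1 : ℕ) : ℕ := loopD f 4100 (Nat.succ L) acc1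

noncomputable def pk2 (i j : ℕ) : ℕ := 68719476736 + i * 16777216 + j * 4096
noncomputable def pk3 (i j l : ℕ) : ℕ := 137438953472 + i * 16777216 + j * 4096 + l
noncomputable def pkp (i j : ℕ) : ℕ := 206158430208 + i * 16777216 + j * 4096

/-- evaluate the key, look it up, push the result to the accumulator -/
noncomputable def look (psh : ℕ → ℕ → ℕ) (t : TT) (k acc1 : ℕ) : ℕ :=
  nb (Nat.succ k) fun x => psh (find x t) acc1

/-- table lookup for the commutator of two basis words -/
noncomputable def t2 (psh : ℕ → ℕ → ℕ) (t : TT) (i j acc1 : ℕ) : ℕ :=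
  Bool.rec (motive := fun _ => ℕ)
    (Bool.rec (motive := fun _ => ℕ) (look psh t (pk2 i j) acc1) (look psh t (pk2 j i) acc1)
      (Nat.ble (Nat.succ j) i)) acc1 (Nat.beq i j)

noncomputable def t3s (psh : ℕ → ℕ → ℕ) (t : TT) (i j l acc1 : ℕ) : ℕ :=
  Bool.rec (motive := fun _ => ℕ)
    (Bool.rec (motive := fun _ => ℕ) (look psh t (pk3 i j l) acc1) (look psh t (pk3 i l j) acc1)
      (Nat.ble (Nat.succ l) j)) (look psh t (pk3 l i j) acc1) (Nat.ble (Nat.succ l) i)

noncomputable def t3 (psh : ℕ → ℕ → ℕ) (t : TT) (i j l acc1 : ℕ) : ℕ :=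
  Bool.rec (motive := fun _ => ℕ)
    (Bool.rec (motive := fun _ => ℕ)
      (Bool.rec (motive := fun _ => ℕ)
        (Bool.rec (motive := fun _ => ℕ) (t3s psh t i j l acc1) (t3s psh t j i l acc1)
          (Nat.ble (Nat.succ j) i)) acc1 (Nat.beq i l)) acc1 (Nat.beq j l)) acc1 (Nat.beq i j)

/-- products of two basis words, ordered -/
noncomputable def tp (psh : ℕ → ℕ → ℕ) (t : TT) (i j acc1 : ℕ) : ℕ :=
  Bool.rec (motive := fun _ => ℕ) (look psh t (pkp i j) acc1)
    (nb (look psh t (pkp j i) acc1) fun x => look psh t (pk2 j i) (Nat.succ x))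
    (Nat.ble (Nat.succ j) i)

noncomputable def b2 (psh : ℕ → ℕ → ℕ) (t : TT) (m n acc1 : ℕ) : ℕ :=
  loopR (fun i a => loopR (fun j b => t2 psh t i j b) n a) m acc1
noncomputable def b3 (psh : ℕ → ℕ → ℕ) (t : TT) (m n o acc1 : ℕ) : ℕ :=
  loopR (fun i a => loopR (fun j b => loopR (fun l c => t3 psh t i j l c) o b) n a) m acc1
noncomputable def bp (psh : ℕ → ℕ → ℕ) (t : TT) (m n acc1 : ℕ) : ℕ :=
  loopR (fun i a => loopR (fun j b => tp psh t i j b) n a) m acc1

/-- push the elements of a list (encoded) -/
noncomputable def pushL (v acc1 : ℕ) : ℕ :=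
  nb v fun L => loopR (fun g b => nb b fun a => Nat.succ (Nat.add (Nat.mul a 4096) (Nat.succ g)))
    L acc1

/-- tagged unit mask -/
noncomputable def unitM (i : ℕ) : ℕ :=
  Nat.add (Nat.pow 2 (Nat.add i 64))
    (Nat.mod (Nat.mul (Nat.succ i) 11400714819323198485) 18446744073709551616)

/-- push a symbol to a row -/
noncomputable def pushT (v acc1 : ℕ) : ℕ :=
  nb v fun i => nb acc1 fun a => Nat.succ (Nat.xor a (unitM i))

noncomputable def getA (l : List ℕ) : ℕ → ℕ :=
  List.rec (motive := fun _ => ℕ → ℕ) (fun _ => 0)
    (fun x _ ih i => Nat.rec (motive := fun _ => ℕ) x (fun n _ => ih n) i) l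

/-- normal form of a tree (encoded list) -/
noncomputable def evN (low : TT) (args : List ℕ) (t : Tr) : ℕ :=
  Tr.rec (motive := fun _ => ℕ) (fun i => Nat.succ (Nat.succ (getA args i)))
    (fun _ _ x y => nb x fun m => nb y fun n => b2 pushL low m n 1)
    (fun _ _ _ x y z => nb x fun m => nb y fun n => nb z fun o => b3 pushL low m n o 1) t

noncomputable def evR (low top : TT) (args : List ℕ) (t : RT) (acc1 : ℕ) : ℕ :=
  RT.rec (motive := fun _ => ℕ)
    (fun s t => nb (evN low args s) fun m => nb (evN low args t) fun n =>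
      b2 pushT top m n acc1)
    (fun s t u => nb (evN low args s) fun m => nb (evN low args t) fun n =>
      nb (evN low args u) fun o => b3 pushT top m n o acc1)
    (fun s t => nb (evN low args s) fun m => nb (evN low args t) fun n =>
      bp pushT top m n acc1) t

/-- row of a schema instance (encoded) -/
noncomputable def evS (low top : TT) (args : List ℕ) (s : List RT) : ℕ → ℕ :=
  List.rec (motive := fun _ => ℕ → ℕ) (fun acc1 => acc1)
    (fun t _ ih acc1 => nb (evR low top args t acc1) fun x => ih (Nat.succ x)) s

/-- schema number `n` -/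
noncomputable def getS (l : List (List RT)) : ℕ → List RT :=
  List.rec (motive := fun _ => ℕ → List RT) (fun _ => [])
    (fun x _ ih i => Nat.rec (motive := fun _ => List RT) x (fun n _ => ih n) i) l

/-- check all rows of an instance tree -/
noncomputable def checkI (S : List (List RT)) (low top : TT) (t : IT) : Bool :=
  IT.rec (motive := fun _ => Bool) true
    (fun _ _ s args row _ cl cr =>
      Bool.rec (motive := fun _ => Bool) false
        (Bool.rec (motive := fun _ => Bool) false cr cl)
        (Nat.beq (evS low top args (getS S s) 1) (Nat.succ row))) t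

/-- field number `i` of a packed table with 40-bit fields -/
noncomputable def fld (K i : ℕ) : ℕ := Nat.mod (Nat.shiftRight K (Nat.mul 40 i)) 1099511627776

/-- check a symbol tree against the packed key table -/
noncomputable def checkK (K : ℕ) (t : TT) : Bool :=
  TT.rec (motive := fun _ => Bool) true
    (fun _ k v _ _ cl cr =>
      Bool.rec (motive := fun _ => Bool) false
        (Bool.rec (motive := fun _ => Bool) false
          (Bool.rec (motive := fun _ => Bool) false cr cl)
          (Nat.beq (fld K (Nat.pred v)) k))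
        (Nat.ble v 8192)) t

/-- xor of the rows in a list -/
noncomputable def xorRows (it : IT) (c : ℕ) : ℕ :=
  loopR (fun j b => nb (findI j it) fun v => nb b fun a => Nat.succ (Nat.xor a v)) c 1

/-- add the defining symbols of a normal form -/
noncomputable def defAdd (DK : ℕ) (top : TT) (L acc1 : ℕ) : ℕ :=
  loopR (fun g b => Bool.rec (motive := fun _ => ℕ) 0 (look pushT top (fld DK g) b) (Nat.ble 6 g))
    L acc1

/-- check one node of a normal form table; `L` is the normal form -/
noncomputable def checkN (DK : ℕ) (top : TT) (it : IT) (k L c : ℕ) : Bool :=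
  Bool.rec (motive := fun _ => Bool)
    (Nat.beq
      (nb (xorRows it c) fun r => nb (defAdd DK top L (Nat.succ r)) fun w =>
        look pushT top k (Nat.succ w)) 1)
    (Bool.rec (motive := fun _ => Bool) false
      (Bool.rec (motive := fun _ => Bool) false
        (Nat.beq (fld DK (Nat.pred L)) k)
        (Nat.ble L 4095))
      (Nat.ble 7 L))
    (Nat.beq c 0)

/-- Boolean bind -/
noncomputable def nbB (x : ℕ) (f : ℕ → Bool) : Bool :=
  Nat.rec (motive := fun _ => Bool) false (fun n _ => f n) x

noncomputable def checkC (DK : ℕ) (top : TT) (it : IT) (t : TT) : Bool :=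
  TT.rec (motive := fun _ => Bool) true
    (fun _ k v c _ cl cr =>
      Bool.rec (motive := fun _ => Bool) false
        (Bool.rec (motive := fun _ => Bool) false cr cl)
        (nbB v fun L => checkN DK top it k L c)) t

/-- first hit in a list of trees -/
noncomputable def findL (x : ℕ) (ts : List TT) : ℕ :=
  List.rec (motive := fun _ => ℕ) 0
    (fun t _ ih => Nat.rec (motive := fun _ => ℕ) ih (fun n _ => Nat.succ n) (find x t)) ts

/-- check that the nodes of a tree occur in a list of trees -/
noncomputable def checkU (ts : List TT) (t : TT) : Bool :=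
  TT.rec (motive := fun _ => Bool) true
    (fun _ k v _ _ cl cr =>
      Bool.rec (motive := fun _ => Bool) false
        (Bool.rec (motive := fun _ => Bool) false
          (Bool.rec (motive := fun _ => Bool) false cr cl)
          (Nat.beq (findL k ts) v))
        (Nat.ble 1 v)) t

/-- validity of the table of definitions -/
noncomputable def validF (DK g : ℕ) : Bool :=
  Bool.rec (motive := fun _ => Bool) false
    (Bool.rec (motive := fun _ => Bool) false
      (Bool.rec (motive := fun _ => Bool) false
        (Nat.ble (fld DK g) 206158430207)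
        (Nat.ble (Nat.succ (Nat.mod (fld DK g) 4096)) g))
      (Nat.ble (Nat.succ (Nat.mod (Nat.div (fld DK g) 4096) 4096)) g))
    (Nat.ble (Nat.succ (Nat.mod (Nat.div (fld DK g) 16777216) 4096)) g)

/-- all `g` in the block `64 b, ..., 64 b + n - 1` are valid (or `< 6`) -/
noncomputable def validB (DK b : ℕ) (n : ℕ) : Bool :=
  Nat.rec (motive := fun _ => Bool) true
    (fun g ih => Bool.rec (motive := fun _ => Bool) false ih
      (Bool.rec (motive := fun _ => Bool) true (validF DK (64 * b + g))
        (Nat.ble 6 (64 * b + g)))) n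

/-- all `g` below `64 n` are valid (or `< 6`) -/
noncomputable def validD (DK : ℕ) (n : ℕ) : Bool :=
  Nat.rec (motive := fun _ => Bool) true
    (fun b ih => Bool.rec (motive := fun _ => Bool) false ih (validB DK b 64)) n

end H8Alt.C2
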