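import Pool.Agent.H8.Alt.C2.Data.S8

/-!
# `[β,e] = 0` in alternative rings with `2 = 0`
-/

namespace H8Alt.C2

/-- the six letters -/
def letters {A : Type*} [Zero A] (z a b c d e : A) : ℕ → A
  | 0 => z
  | 1 => a
  | 2 => b
  | 3 => c
  | 4 => d
  | 5 => e
  | _ => 0

theorem bt_comm_two {A : Type*} [NonUnitalNonAssocRing A] [IsAlternative A]
    (h2 : ∀ x : A, x + x = 0) (z a b c d e : A) : cm (bt z a b c d) e = 0 := by
  have h1 := Nat.eq_of_beq_eq_true D8.hH
  have h3 := Nat.eq_of_beq_eq_true D8.hX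
  have h := final_sound h2 (valid h2) (gen := letters z a b c d e) (goodT7 h2 _) D8.hK D8.hI h1 h3
  rw [h_eval h2] at h
  have e1 : ∀ i, i < 6 → lv (val DK (letters z a b c d e)) (getA [0, 1, 2, 3, 4, 5] i + 1) =
      letters z a b c d e i := by
    intro i hi
    have e2 : getA [0, 1, 2, 3, 4, 5] i = i := by
      rcases i with _ | _ | _ | _ | _ | _ | i <;> first | rfl | omega
    rw [e2, lv_single _ (by omega) (by omega), Nat.add_sub_cancel, val_gen _ _ hi]
  rw [e1 0 (by norm_num), e1 1 (by norm_num), e1 2 (by norm_num), e1 3 (by norm_num),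
    e1 4 (by norm_num), e1 5 (by norm_num)] at h
  exact h

end H8Alt.C2
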