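import Pool.Agent.H8.Alt.C2.Sound3
import Pool.Agent.H8.Alt.Quintic
import Pool.Agent.H8.Alt.ZCalc

set_option linter.unusedSectionVars false

/-!
# Schemas for the checker in characteristic two
-/

namespace H8Alt.C2

/-- schema 0 -/
def sJac : List RT := [
  .c (.c (.l 0) (.l 1)) (.l 2),
  .c (.c (.l 1) (.l 2)) (.l 0),
  .c (.c (.l 2) (.l 0)) (.l 1)]

/-- schema 1 -/
def sR4 : List RT := [
  .a (.c (.l 0) (.l 1)) (.l 2) (.l 3),
  .c (.l 0) (.a (.l 1) (.l 2) (.l 3)),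
  .c (.l 1) (.a (.l 0) (.l 2) (.l 3))]

/-- schema 2 -/
def sFal : List RT := [
  .a (.c (.l 0) (.l 1)) (.l 2) (.l 3),
  .a (.c (.l 2) (.l 3)) (.l 0) (.l 1),
  .a (.c (.l 0) (.l 2)) (.l 1) (.l 3),
  .a (.c (.l 1) (.l 3)) (.l 0) (.l 2)]

/-- schema 3 -/
def sB1 : List RT := [
  .c (.a (.c (.l 1) (.l 2)) (.l 3) (.l 4)) (.l 0),
  .c (.a (.c (.l 3) (.l 4)) (.l 1) (.l 2)) (.l 0),
  .a (.a (.l 1) (.l 2) (.l 3)) (.l 0) (.l 4),
  .a (.a (.l 1) (.l 2) (.l 4)) (.l 0) (.l 3),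
  .a (.a (.l 1) (.l 3) (.l 4)) (.l 0) (.l 2),
  .a (.a (.l 2) (.l 3) (.l 4)) (.l 0) (.l 1)]

/-- schema 4 -/
def sPhi : List RT := [
  .a (.l 0) (.l 1) (.a (.l 2) (.l 3) (.l 4)),
  .a (.a (.l 0) (.l 1) (.l 2)) (.l 3) (.l 4),
  .a (.l 2) (.a (.l 0) (.l 1) (.l 3)) (.l 4),
  .a (.l 2) (.l 3) (.a (.l 0) (.l 1) (.l 4)),
  .c (.c (.l 0) (.l 1)) (.a (.l 2) (.l 3) (.l 4)),
  .a (.c (.c (.l 0) (.l 1)) (.l 2)) (.l 3) (.l 4),
  .a (.c (.l 3) (.l 4)) (.c (.l 0) (.l 1)) (.l 2)]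

/-- schema 5 -/
def sK7x : List RT := [
  .c (.c (.l 0) (.l 1)) (.a (.l 2) (.l 3) (.l 4)),
  .c (.c (.l 2) (.l 1)) (.a (.l 0) (.l 3) (.l 4)),
  .c (.c (.l 0) (.l 3)) (.a (.l 2) (.l 1) (.l 4)),
  .c (.c (.l 2) (.l 3)) (.a (.l 0) (.l 1) (.l 4))]

/-- schema 6 -/
def sK7y : List RT := [
  .c (.c (.l 0) (.l 1)) (.a (.l 0) (.l 2) (.l 3)),
  .c (.c (.l 0) (.l 2)) (.a (.l 0) (.l 1) (.l 3))]

/-- schema 7 -/
def sK7z : List RT := [
  .c (.c (.l 0) (.l 1)) (.a (.l 0) (.l 1) (.l 2))]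

/-- schema 8 -/
def sX : List RT := [
  .p (.c (.l 0) (.l 1)) (.a (.l 2) (.l 3) (.l 4)),
  .p (.c (.l 2) (.l 3)) (.a (.l 0) (.l 1) (.l 4)),
  .a (.l 0) (.l 1) (.a (.l 2) (.l 3) (.l 4)),
  .a (.l 2) (.l 3) (.a (.l 0) (.l 1) (.l 4)),
  .p (.c (.l 2) (.l 1)) (.a (.l 0) (.l 3) (.l 4)),
  .p (.c (.l 0) (.l 3)) (.a (.l 2) (.l 1) (.l 4)),
  .a (.l 2) (.l 1) (.a (.l 0) (.l 3) (.l 4)),
  .a (.l 0) (.l 3) (.a (.l 2) (.l 1) (.l 4))]

/-- schema 9 -/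
def sY : List RT := [
  .p (.c (.l 0) (.l 1)) (.a (.l 0) (.l 2) (.l 3)),
  .p (.c (.l 0) (.l 2)) (.a (.l 0) (.l 1) (.l 3)),
  .a (.l 0) (.l 1) (.a (.l 0) (.l 2) (.l 3)),
  .a (.l 0) (.l 2) (.a (.l 0) (.l 1) (.l 3))]

/-- schema 10 -/
def sDX : List RT := [
  .p (.a (.l 2) (.l 3) (.l 4)) (.a (.c (.l 0) (.l 1)) (.l 5) (.l 6)),
  .p (.a (.a (.l 2) (.l 3) (.l 4)) (.l 5) (.l 6)) (.c (.l 0) (.l 1)),
  .a (.c (.c (.l 0) (.l 1)) (.a (.l 2) (.l 3) (.l 4))) (.l 5) (.l 6),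
  .a (.c (.l 5) (.l 6)) (.c (.l 0) (.l 1)) (.a (.l 2) (.l 3) (.l 4)),
  .p (.a (.l 0) (.l 1) (.l 4)) (.a (.c (.l 2) (.l 3)) (.l 5) (.l 6)),
  .p (.a (.a (.l 0) (.l 1) (.l 4)) (.l 5) (.l 6)) (.c (.l 2) (.l 3)),
  .a (.c (.c (.l 2) (.l 3)) (.a (.l 0) (.l 1) (.l 4))) (.l 5) (.l 6),
  .a (.c (.l 5) (.l 6)) (.c (.l 2) (.l 3)) (.a (.l 0) (.l 1) (.l 4)),
  .a (.a (.l 0) (.l 1) (.a (.l 2) (.l 3) (.l 4))) (.l 5) (.l 6),
  .a (.a (.l 2) (.l 3) (.a (.l 0) (.l 1) (.l 4))) (.l 5) (.l 6),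
  .p (.a (.l 0) (.l 3) (.l 4)) (.a (.c (.l 2) (.l 1)) (.l 5) (.l 6)),
  .p (.a (.a (.l 0) (.l 3) (.l 4)) (.l 5) (.l 6)) (.c (.l 2) (.l 1)),
  .a (.c (.c (.l 2) (.l 1)) (.a (.l 0) (.l 3) (.l 4))) (.l 5) (.l 6),
  .a (.c (.l 5) (.l 6)) (.c (.l 2) (.l 1)) (.a (.l 0) (.l 3) (.l 4)),
  .p (.a (.l 2) (.l 1) (.l 4)) (.a (.c (.l 0) (.l 3)) (.l 5) (.l 6)),
  .p (.a (.a (.l 2) (.l 1) (.l 4)) (.l 5) (.l 6)) (.c (.l 0) (.l 3)),
  .a (.c (.c (.l 0) (.l 3)) (.a (.l 2) (.l 1) (.l 4))) (.l 5) (.l 6),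
  .a (.c (.l 5) (.l 6)) (.c (.l 0) (.l 3)) (.a (.l 2) (.l 1) (.l 4)),
  .a (.a (.l 2) (.l 1) (.a (.l 0) (.l 3) (.l 4))) (.l 5) (.l 6),
  .a (.a (.l 0) (.l 3) (.a (.l 2) (.l 1) (.l 4))) (.l 5) (.l 6)]

/-- the target -/
def sH : List RT := [
  .p (.a (.l 1) (.l 2) (.l 0)) (.c (.c (.l 0) (.a (.l 3) (.l 4) (.l 0))) (.l 5)),
  .p (.c (.a (.l 1) (.l 2) (.l 0)) (.l 5)) (.c (.l 0) (.a (.l 3) (.l 4) (.l 0))),
  .a (.a (.l 1) (.l 2) (.l 0)) (.c (.l 0) (.a (.l 3) (.l 4) (.l 0))) (.l 5),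
  .p (.c (.l 0) (.a (.l 1) (.l 2) (.l 0))) (.c (.a (.l 3) (.l 4) (.l 0)) (.l 5)),
  .p (.c (.c (.l 0) (.a (.l 1) (.l 2) (.l 0))) (.l 5)) (.a (.l 3) (.l 4) (.l 0)),
  .a (.c (.l 0) (.a (.l 1) (.l 2) (.l 0))) (.a (.l 3) (.l 4) (.l 0)) (.l 5)]

def schemas : List (List RT) := [sJac, sR4, sFal, sB1, sPhi, sK7x, sK7y, sK7z, sX, sY, sDX]

section
variable {A : Type*} [NonUnitalNonAssocRing A] [IsAlternative A] (h2 : ∀ x : A, x + x = 0)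
include h2

omit [IsAlternative A] in
theorem cm_c2 (a b : A) : cm a b = a * b + b * a := by rw [cm, sub_eq_add2 h2]

theorem jac_valid (x : ℕ → A) : evalS x sJac = 0 := by
  simp only [evalS, sJac, RT.eval, Tr.eval]
  have h := jac (x 0) (x 1) (x 2)
  have e : (6 : ℤ) • as (x 0) (x 1) (x 2) = 0 := by
    have := h2 ((3 : ℤ) • as (x 0) (x 1) (x 2))
    rw [← this]; module
  linear_combination (norm := module) h + e

theorem r4_valid (x : ℕ → A) : evalS x sR4 = 0 := by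
  simp only [evalS, sR4, RT.eval, Tr.eval]
  have h := r4 (x 0) (x 1) (x 2) (x 3)
  linear_combination (norm := module) h + h2 (cm (x 0) (as (x 1) (x 2) (x 3)))
    - h2 (as (cm (x 2) (x 3)) (x 0) (x 1))

theorem fal_valid (x : ℕ → A) : evalS x sFal = 0 := by
  simp only [evalS, sFal, RT.eval, Tr.eval]
  have h := kf_swap23 (x 0) (x 1) (x 2) (x 3)
  rw [kf_eq, kf_eq] at h
  linear_combination (norm := module) h

theorem b1_valid (x : ℕ → A) : evalS x sB1 = 0 := by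
  simp only [evalS, sB1, RT.eval, Tr.eval]
  have h := b1_id (x 0) (x 1) (x 2) (x 3) (x 4)
  rw [cm_add1] at h
  linear_combination (norm := module) h + h2 (as (as (x 1) (x 2) (x 4)) (x 0) (x 3))
    + h2 (as (as (x 2) (x 3) (x 4)) (x 0) (x 1))

theorem phi_valid (x : ℕ → A) : evalS x sPhi = 0 := by
  simp only [evalS, sPhi, RT.eval, Tr.eval]
  have h := phi_id (x 0) (x 1) (x 2) (x 3) (x 4)
  linear_combination (norm := module) h + h2 (as (as (x 0) (x 1) (x 2)) (x 3) (x 4))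
    + h2 (as (x 2) (as (x 0) (x 1) (x 3)) (x 4)) + h2 (as (x 2) (x 3) (as (x 0) (x 1) (x 4)))
    + h2 (cm (cm (x 0) (x 1)) (as (x 2) (x 3) (x 4)))

theorem k7x_valid (x : ℕ → A) : evalS x sK7x = 0 := by
  simp only [evalS, sK7x, RT.eval, Tr.eval]
  have h := xiL_swap13 (x 0) (x 1) (x 2) (x 3) (x 4)
  have h' := xiR_swap13 (x 0) (x 1) (x 2) (x 3) (x 4)
  simp only [xiL, xiR] at h h'
  rw [cm_c2 h2 (cm (x 0) (x 1)), cm_c2 h2 (cm (x 2) (x 1)), cm_c2 h2 (cm (x 0) (x 3)),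
    cm_c2 h2 (cm (x 2) (x 3))]
  linear_combination (norm := module) h' - h

theorem k7y_valid (x : ℕ → A) : evalS x sK7y = 0 := by
  simp only [evalS, sK7y, RT.eval, Tr.eval]
  have h := xiL_self13 (x 0) (x 1) (x 2) (x 3)
  have h' := xiR_self13 (x 0) (x 1) (x 2) (x 3)
  simp only [xiL, xiR] at h h'
  rw [cm_c2 h2 (cm (x 0) (x 1)), cm_c2 h2 (cm (x 0) (x 2))]
  linear_combination (norm := module) h' - h

theorem k7z_valid (x : ℕ → A) : evalS x sK7z = 0 := by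
  simp only [evalS, sK7z, RT.eval, Tr.eval]
  have h := jstar (x 0) (x 1) (x 2)
  have e : cm (cm (x 0) (x 1)) (as (x 0) (x 1) (x 2)) =
    cm (x 0) (x 1) * as (x 0) (x 1) (x 2) - as (x 0) (x 1) (x 2) * cm (x 0) (x 1) := rfl
  rw [e]
  linear_combination (norm := module) h - h2 (as (x 0) (x 1) (x 2) * cm (x 0) (x 1))

theorem xi_valid (a b c d e : A) : cm a b * as c d e + (cm c d * as a b e + (as a b (as c d e) +
    (as c d (as a b e) + (cm c b * as a d e + (cm a d * as c b e + (as c b (as a d e) +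
    (as a d (as c b e) + 0))))))) = 0 := by
  have h := xiL_swap13 a b c d e
  simp only [xiL] at h
  linear_combination (norm := module) h + h2 (cm a b * as c d e) + h2 (cm c d * as a b e)
    + h2 (cm c b * as a d e) + h2 (cm a d * as c b e)

theorem x_valid (x : ℕ → A) : evalS x sX = 0 := by
  simp only [evalS, sX, RT.eval, Tr.eval]
  exact xi_valid h2 _ _ _ _ _

theorem y_valid (x : ℕ → A) : evalS x sY = 0 := by
  simp only [evalS, sY, RT.eval, Tr.eval]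
  have h := xiL_self13 (x 0) (x 1) (x 2) (x 3)
  simp only [xiL] at h
  linear_combination (norm := module) h + h2 (cm (x 0) (x 1) * as (x 0) (x 2) (x 3))
    + h2 (cm (x 0) (x 2) * as (x 0) (x 1) (x 3))

omit h2 in
/-- derivation-like operator `(-,y,w)` on products -/
theorem de_mul (u v y w : A) : as (u * v) y w =
    v * as u y w + (as v y w * u + (as (cm u v) y w + as (cm y w) u v)) := by
  rw [as_mul_left, kf_eq]; abel

theorem dx_valid (x : ℕ → A) : evalS x sDX = 0 := by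
  simp only [evalS, sDX, RT.eval, Tr.eval]
  have h := congrArg (fun t => as t (x 5) (x 6)) (xi_valid h2 (x 0) (x 1) (x 2) (x 3) (x 4))
  simp only [as_add1, as_zero1, de_mul] at h
  linear_combination (norm := module) h

theorem valid : Valid A schemas := by
  intro s hs x
  simp only [schemas, List.mem_cons, List.not_mem_nil, or_false] at hs
  rcases hs with rfl | rfl | rfl | rfl | rfl | rfl | rfl | rfl | rfl | rfl | rfl
  · exact jac_valid h2 x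
  · exact r4_valid h2 x
  · exact fal_valid h2 x
  · exact b1_valid h2 x
  · exact phi_valid h2 x
  · exact k7x_valid h2 x
  · exact k7y_valid h2 x
  · exact k7z_valid h2 x
  · exact x_valid h2 x
  · exact y_valid h2 x
  · exact dx_valid h2 x

/-- the target evaluates to `[β,e]` -/
theorem h_eval (x : ℕ → A) : evalS x sH = cm (bt (x 0) (x 1) (x 2) (x 3) (x 4)) (x 5) := by
  simp only [evalS, sH, RT.eval, Tr.eval]
  rw [bt_eq, cm_sub1, cm_add1, cm_mul_left, cm_mul_left]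
  have e1 : cm ((2 : ℤ) • as (as (x 1) (x 2) (x 0)) (as (x 3) (x 4) (x 0)) (x 0)) (x 5) = 0 := by
    rw [two_zsmul, h2, cm_zero1]
  rw [e1]
  linear_combination (norm := module)
    -h2 (as (as (x 1) (x 2) (x 0)) (cm (x 0) (as (x 3) (x 4) (x 0))) (x 5))
      - h2 (as (cm (x 0) (as (x 1) (x 2) (x 0))) (as (x 3) (x 4) (x 0)) (x 5))

end

end H8Alt.C2
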