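import Pool.Agent.H8.Alt.C2.Engine

/-!
# Soundness of the checker
-/

namespace H8Alt.C2

open Finset

/-! ### trees -/

def TT.All (P : ℕ → ℕ → ℕ → Prop) : TT → Prop
  | .lf => True
  | .nd l k v c r => P k v c ∧ l.All P ∧ r.All P

def IT.All (P : ℕ → ℕ → List ℕ → ℕ → Prop) : IT → Prop
  | .lf => True
  | .nd l i s args row r => P i s args row ∧ l.All P ∧ r.All P

theorem find_nd (x : ℕ) (l : TT) (k v c : ℕ) (r : TT) :
    find x (.nd l k v c r) = if x < k then find x l else if k < x then find x r else v := by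
  have e : find x (.nd l k v c r) =
      Bool.rec (motive := fun _ => ℕ)
        (Bool.rec (motive := fun _ => ℕ) v (find x r) (Nat.ble (Nat.succ k) x)) (find x l)
        (Nat.ble (Nat.succ x) k) := rfl
  rw [e]
  by_cases h1 : x < k
  · have : Nat.ble (Nat.succ x) k = true := Nat.ble_eq_true_of_le h1
    rw [this, if_pos h1]
  · have : Nat.ble (Nat.succ x) k = false := by
      rw [← Bool.not_eq_true, Nat.ble_eq]; exact h1
    rw [this, if_neg h1]
    by_cases h2 : k < x
    · have : Nat.ble (Nat.succ k) x = true := Nat.ble_eq_true_of_le h2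
      rw [this, if_pos h2]
    · have : Nat.ble (Nat.succ k) x = false := by
        rw [← Bool.not_eq_true, Nat.ble_eq]; exact h2
      rw [this, if_neg h2]

theorem find_all {P : ℕ → ℕ → ℕ → Prop} {t : TT} (h : t.All P) {x : ℕ} (hx : find x t ≠ 0) :
    ∃ c, P x (find x t) c := by
  induction t with
  | lf => exact absurd rfl hx
  | nd l k v c r ihl ihr =>
    rw [find_nd] at hx ⊢
    obtain ⟨h1, h2, h3⟩ := h
    split_ifs at hx ⊢ with h4 h5
    · exact ihl h2 hx
    · exact ihr h3 hx
    · have : x = k := by omega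
      subst this
      exact ⟨c, h1⟩

theorem findI_nd (x : ℕ) (l : IT) (i s : ℕ) (args : List ℕ) (row : ℕ) (r : IT) :
    findI x (.nd l i s args row r) =
      if x < i then findI x l else if i < x then findI x r else row + 1 := by
  have e : findI x (.nd l i s args row r) =
      Bool.rec (motive := fun _ => ℕ)
        (Bool.rec (motive := fun _ => ℕ) (row + 1) (findI x r) (Nat.ble (Nat.succ i) x))
        (findI x l) (Nat.ble (Nat.succ x) i) := rfl
  rw [e]
  by_cases h1 : x < i
  · have : Nat.ble (Nat.succ x) i = true := Nat.ble_eq_true_of_le h1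
    rw [this, if_pos h1]
  · have : Nat.ble (Nat.succ x) i = false := by
      rw [← Bool.not_eq_true, Nat.ble_eq]; exact h1
    rw [this, if_neg h1]
    by_cases h2 : i < x
    · have : Nat.ble (Nat.succ i) x = true := Nat.ble_eq_true_of_le h2
      rw [this, if_pos h2]
    · have : Nat.ble (Nat.succ i) x = false := by
        rw [← Bool.not_eq_true, Nat.ble_eq]; exact h2
      rw [this, if_neg h2]

theorem findI_all {P : ℕ → ℕ → List ℕ → ℕ → Prop} {t : IT} (h : t.All P) {x v : ℕ}
    (hx : findI x t = v + 1) : ∃ s args, P x s args v := by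
  induction t with
  | lf => exact absurd hx (by simp [findI])
  | nd l i s args row r ihl ihr =>
    rw [findI_nd] at hx
    obtain ⟨h1, h2, h3⟩ := h
    split_ifs at hx with h4 h5
    · exact ihl h2 hx
    · exact ihr h3 hx
    · have : x = i := by omega
      subst this
      obtain rfl : row = v := by omega
      exact ⟨s, args, h1⟩

/-! ### bind -/

theorem nb_eq {x : ℕ} {f : ℕ → ℕ} {r : ℕ} (h : nb x f = r + 1) :
    ∃ m, x = m + 1 ∧ f m = r + 1 := by
  cases x with
  | zero => exact absurd h (by simp [nb])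
  | succ m => exact ⟨m, rfl, h⟩

/-! ### evaluation of masks and lists -/

section
variable {A : Type*} [NonUnitalNonAssocRing A]

/-- value of a mask -/
def ev (N : ℕ) (f : ℕ → A) (m : ℕ) : A := ∑ i ∈ range N, if m.testBit i then f i else 0

@[simp] theorem ev_zero (N : ℕ) (f : ℕ → A) : ev N f 0 = 0 := by simp [ev]

theorem ev_two_pow {N : ℕ} (f : ℕ → A) {i : ℕ} (h : i < N) : ev N f (2 ^ i) = f i := by
  rw [ev, sum_eq_single i]
  · simp
  · intro j _ hj
    rw [Nat.testBit_two_pow, if_neg]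
    simpa using fun h => hj h.symm
  · intro h'; exact absurd (mem_range.2 h) h'

/-- value of a row: the lower 64 bits are dropped -/
def er (N : ℕ) (f : ℕ → A) (r : ℕ) : A := ev N f (r / 18446744073709551616)

@[simp] theorem er_zero (N : ℕ) (f : ℕ → A) : er N f 0 = 0 := by simp [er]

theorem unitM_div (i : ℕ) : unitM i / 18446744073709551616 = 2 ^ i := by
  have e : unitM i = 2 ^ (i + 64) + (i + 1) * 11400714819323198485 % 18446744073709551616 := rfl
  have h : (18446744073709551616 : ℕ) = 2 ^ 64 := by norm_num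
  rw [e]
  have h1 : (i + 1) * 11400714819323198485 % 18446744073709551616 < 18446744073709551616 :=
    Nat.mod_lt _ (by norm_num)
  generalize (i + 1) * 11400714819323198485 % 18446744073709551616 = x at *
  rw [pow_add, ← h, Nat.add_comm, Nat.add_mul_div_right _ _ (by norm_num),
    Nat.div_eq_of_lt h1, zero_add]

theorem er_unitM {N : ℕ} (f : ℕ → A) {i : ℕ} (h : i < N) : er N f (unitM i) = f i := by
  rw [er, unitM_div, ev_two_pow f h]

/-- value of a list -/
noncomputable def lv (f : ℕ → A) (L : ℕ) : A :=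
  if L = 0 then 0 else f (L % 4096 - 1) + lv f (L / 4096)
termination_by L
decreasing_by omega

@[simp] theorem lv_zero (f : ℕ → A) : lv f 0 = 0 := by rw [lv, if_pos rfl]

theorem lv_ne (f : ℕ → A) {L : ℕ} (h : L ≠ 0) : lv f L = f (L % 4096 - 1) + lv f (L / 4096) := by
  rw [lv, if_neg h]

theorem lv_push (f : ℕ → A) (a : ℕ) {g : ℕ} (hg : g < 4095) :
    lv f (a * 4096 + (g + 1)) = f g + lv f a := by
  rw [lv_ne f (by omega)]
  have e1 : (a * 4096 + (g + 1)) % 4096 - 1 = g := by omega
  have e2 : (a * 4096 + (g + 1)) / 4096 = a := by omega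
  rw [e1, e2]

theorem lv_single (f : ℕ → A) {L : ℕ} (h1 : 1 ≤ L) (h2 : L ≤ 4095) : lv f L = f (L - 1) := by
  rw [lv_ne f (by omega)]
  have e1 : L % 4096 - 1 = L - 1 := by omega
  have e2 : L / 4096 = 0 := by omega
  rw [e1, e2, lv_zero, add_zero]

/-- the accumulator is advanced by `x` -/
def Adv (Q : ℕ → A) (x : A) (acc1 r : ℕ) : Prop := ∃ a, acc1 = a + 1 ∧ Q r = Q a + x

theorem Adv.zero {Q : ℕ → A} (r : ℕ) : Adv Q 0 (r + 1) r := ⟨r, rfl, by rw [add_zero]⟩

theorem Adv.trans {Q : ℕ → A} {x y : A} {a b r : ℕ} (h1 : Adv Q x a b) (h2 : Adv Q y (b + 1) r) :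
    Adv Q (x + y) a r := by
  obtain ⟨u, hu, h1⟩ := h1
  obtain ⟨v, hv, h2⟩ := h2
  obtain rfl : b = v := by omega
  exact ⟨u, hu, by rw [h2, h1, add_assoc]⟩

theorem loopD_sound {Q : ℕ → A} {g : ℕ → A} {F : A → A} (hF : ∀ x y, F (x + y) = F x + F y)
    {f : ℕ → ℕ → ℕ}
    (hf : ∀ i acc1 r, i < 4095 → f i acc1 = r + 1 → Adv Q (F (g i)) acc1 r) :
    ∀ fuel L acc1 r, loopD f fuel (L + 1) acc1 = r + 1 → Adv Q (F (lv g L)) acc1 r := by
  have hF0 : F 0 = 0 := by
    have := hF 0 0
    rw [add_zero] at this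
    exact (add_eq_left.mp this.symm)
  intro fuel
  induction fuel with
  | zero => intro L a r h; exact absurd h (by simp [loopD])
  | succ fuel ih =>
    intro L a r h
    have e : loopD f (fuel + 1) (L + 1) a =
        Bool.rec (motive := fun _ => ℕ)
          (nb (Nat.succ (Nat.pred (Nat.mod L 4096))) fun i =>
            nb (f i a) fun b => loopD f fuel (Nat.succ (Nat.div L 4096)) (Nat.succ b))
          a (Nat.beq L 0) := rfl
    rw [e] at h
    by_cases h0 : L = 0
    · subst h0
      have h' : a = r + 1 := h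
      rw [h', lv_zero, hF0]
      exact Adv.zero r
    · have hb : Nat.beq L 0 = false := by
        rw [← Bool.not_eq_true, Nat.beq_eq]; exact h0
      rw [hb] at h
      obtain ⟨i, hi, h⟩ := nb_eq h
      obtain ⟨b, hb', h⟩ := nb_eq h
      have hi' : L % 4096 - 1 = i := by
        have : Nat.pred (L % 4096) + 1 = i + 1 := hi
        rw [Nat.pred_eq_sub_one] at this
        omega
      have hiN : i < 4095 := by omega
      have h1 := hf i a b hiN hb'
      have h3 := ih (L / 4096) (b + 1) r h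
      rw [lv_ne g h0, hi', hF]
      exact h1.trans h3

theorem loopR_sound {Q : ℕ → A} {g : ℕ → A} {F : A → A} (hF : ∀ x y, F (x + y) = F x + F y)
    {f : ℕ → ℕ → ℕ}
    (hf : ∀ i acc1 r, i < 4095 → f i acc1 = r + 1 → Adv Q (F (g i)) acc1 r)
    {L acc1 r : ℕ} (h : loopR f L acc1 = r + 1) : Adv Q (F (lv g L)) acc1 r :=
  loopD_sound hF hf 4100 L acc1 r h

theorem pushL_sound {f : ℕ → A} {v acc1 r : ℕ} (h : pushL v acc1 = r + 1) :
    ∃ L, v = L + 1 ∧ Adv (lv f) (lv f L) acc1 r := by
  obtain ⟨L, hL, h⟩ := nb_eq h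
  refine ⟨L, hL, loopR_sound (g := f) (F := fun x => x) (fun _ _ => rfl) ?_ h⟩
  intro g b r hg h
  obtain ⟨a, ha, h⟩ := nb_eq h
  have h1 : a * 4096 + (g + 1) = r := Nat.succ_injective h
  exact ⟨a, ha, by rw [← h1, lv_push f a hg, add_comm]⟩

variable (h2 : ∀ x : A, x + x = 0)
include h2

theorem ev_xor (N : ℕ) (f : ℕ → A) (m n : ℕ) : ev N f (m ^^^ n) = ev N f m + ev N f n := by
  rw [ev, ev, ev, ← sum_add_distrib]
  apply sum_congr rfl
  intro i _
  rw [Nat.testBit_xor]
  cases m.testBit i <;> cases n.testBit i <;> simp [h2]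

theorem er_xor (N : ℕ) (f : ℕ → A) (m n : ℕ) : er N f (m ^^^ n) = er N f m + er N f n := by
  have h : ∀ x : ℕ, x / 18446744073709551616 = x >>> 64 := by
    intro x; rw [Nat.shiftRight_eq_div_pow]
  rw [er, er, er, h, h, h, Nat.shiftRight_xor_distrib, ev_xor h2]

theorem neg_eq_self2 (x : A) : -x = x := neg_eq_of_add_eq_zero_left (h2 x)

theorem sub_eq_add2 (x y : A) : x - y = x + y := by rw [sub_eq_add_neg, neg_eq_self2 h2]

theorem pushT_sound {M : ℕ} {k : ℕ → A} {v acc1 r : ℕ} (hv : v ≤ M) (h : pushT v acc1 = r + 1) :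
    ∃ i, v = i + 1 ∧ Adv (er M k) (k i) acc1 r := by
  obtain ⟨i, hi, h⟩ := nb_eq h
  obtain ⟨a, ha, h⟩ := nb_eq h
  have h1 : a ^^^ unitM i = r := Nat.succ_injective h
  exact ⟨i, hi, a, ha, by rw [← h1, er_xor h2, er_unitM k (by omega)]⟩

end

end H8Alt.C2
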