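import Pool.Agent.H8.Alt.C2.Sound

/-!
# Soundness of the checker, II
-/

namespace H8Alt.C2

open Finset

set_option linter.unusedSectionVars false

section
variable {A : Type*} [NonUnitalNonAssocRing A]

/-- value of a symbol -/
def symval (f : ℕ → A) (k : ℕ) : A :=
  if k / 68719476736 = 1 then cm (f (k / 16777216 % 4096)) (f (k / 4096 % 4096))
  else if k / 68719476736 = 2 then
    as (f (k / 16777216 % 4096)) (f (k / 4096 % 4096)) (f (k % 4096))
  else if k / 68719476736 = 3 then f (k / 16777216 % 4096) * f (k / 4096 % 4096)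
  else 0

/-- values of basis words -/
noncomputable def val (DK : ℕ) (gen : ℕ → A) (g : ℕ) : A :=
  if g < 6 then gen g
  else
    if h : fld DK g / 16777216 % 4096 < g ∧ fld DK g / 4096 % 4096 < g ∧ fld DK g % 4096 < g then
      if fld DK g / 68719476736 = 1 then
        cm (val DK gen (fld DK g / 16777216 % 4096)) (val DK gen (fld DK g / 4096 % 4096))
      else if fld DK g / 68719476736 = 2 then
        as (val DK gen (fld DK g / 16777216 % 4096)) (val DK gen (fld DK g / 4096 % 4096))
          (val DK gen (fld DK g % 4096))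
      else 0
    else 0
termination_by g
decreasing_by
  all_goals first | exact h.1 | exact h.2.1 | exact h.2.2

theorem val_gen (DK : ℕ) (gen : ℕ → A) {g : ℕ} (h : g < 6) : val DK gen g = gen g := by
  rw [val, if_pos h]

theorem validF_sound {DK g : ℕ} (h : validF DK g = true) :
    fld DK g / 16777216 % 4096 < g ∧ fld DK g / 4096 % 4096 < g ∧ fld DK g % 4096 < g ∧
      fld DK g ≤ 206158430207 := by
  have e : validF DK g = Bool.rec (motive := fun _ => Bool) false
    (Bool.rec (motive := fun _ => Bool) false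
      (Bool.rec (motive := fun _ => Bool) false
        (Nat.ble (fld DK g) 206158430207)
        (Nat.ble (Nat.succ (Nat.mod (fld DK g) 4096)) g))
      (Nat.ble (Nat.succ (Nat.mod (Nat.div (fld DK g) 4096) 4096)) g))
    (Nat.ble (Nat.succ (Nat.mod (Nat.div (fld DK g) 16777216) 4096)) g) := rfl
  rw [e] at h
  by_cases h1 : Nat.ble (Nat.succ (Nat.mod (Nat.div (fld DK g) 16777216) 4096)) g = true
  · rw [h1] at h
    by_cases h2 : Nat.ble (Nat.succ (Nat.mod (Nat.div (fld DK g) 4096) 4096)) g = true
    · rw [h2] at h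
      by_cases h3 : Nat.ble (Nat.succ (Nat.mod (fld DK g) 4096)) g = true
      · rw [h3] at h
        exact ⟨Nat.le_of_ble_eq_true h1, Nat.le_of_ble_eq_true h2, Nat.le_of_ble_eq_true h3,
          Nat.le_of_ble_eq_true h⟩
      · rw [Bool.not_eq_true] at h3
        rw [h3] at h; exact absurd h (by simp)
    · rw [Bool.not_eq_true] at h2
      rw [h2] at h; exact absurd h (by simp)
  · rw [Bool.not_eq_true] at h1
    rw [h1] at h; exact absurd h (by simp)

theorem validB_sound {DK b n : ℕ} (h : validB DK b n = true) :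
    ∀ g, g < n → 6 ≤ 64 * b + g → validF DK (64 * b + g) = true := by
  induction n with
  | zero => intro g hg; exact absurd hg (by omega)
  | succ n ih =>
    have e : validB DK b (n + 1) = Bool.rec (motive := fun _ => Bool) false (validB DK b n)
      (Bool.rec (motive := fun _ => Bool) true (validF DK (64 * b + n))
        (Nat.ble 6 (64 * b + n))) := rfl
    rw [e] at h
    intro g hg h6
    by_cases h1 : Nat.ble 6 (64 * b + n) = true
    · rw [h1] at h
      by_cases h2 : validF DK (64 * b + n) = true
      · rw [h2] at h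
        rcases Nat.lt_succ_iff_lt_or_eq.1 hg with h3 | h3
        · exact ih h g h3 h6
        · rw [h3]; exact h2
      · rw [Bool.not_eq_true] at h2
        rw [h2] at h; exact absurd h (by simp)
    · have : ¬ 6 ≤ 64 * b + n := fun h' => h1 (Nat.ble_eq_true_of_le h')
      omega

theorem validD_sound {DK n : ℕ} (h : validD DK n = true) :
    ∀ g, 6 ≤ g → g < 64 * n → validF DK g = true := by
  induction n with
  | zero => intro g _ hg; exact absurd hg (by omega)
  | succ n ih =>
    have e : validD DK (n + 1) =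
      Bool.rec (motive := fun _ => Bool) false (validD DK n) (validB DK n 64) := rfl
    rw [e] at h
    intro g h6 hg
    by_cases h2 : validB DK n 64 = true
    · rw [h2] at h
      by_cases h3 : g < 64 * n
      · exact ih h g h6 h3
      · have h4 := validB_sound h2 (g - 64 * n) (by omega) (by omega)
        have h5 : 64 * n + (g - 64 * n) = g := by omega
        rwa [h5] at h4
    · rw [Bool.not_eq_true] at h2
      rw [h2] at h; exact absurd h (by simp)

theorem val_def {DK : ℕ} (gen : ℕ → A) {g : ℕ} (h6 : 6 ≤ g) (h : validF DK g = true) :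
    val DK gen g = symval (val DK gen) (fld DK g) := by
  obtain ⟨h1, h2, h3, h4⟩ := validF_sound h
  rw [val, if_neg (by omega), dif_pos ⟨h1, h2, h3⟩, symval]
  split_ifs with h5 h6 h7
  · rfl
  · rfl
  · omega
  · rfl

theorem symval_pk2 (f : ℕ → A) {i j : ℕ} (hi : i < 4096) (hj : j < 4096) :
    symval f (pk2 i j) = cm (f i) (f j) := by
  have e1 : pk2 i j / 68719476736 = 1 := by rw [pk2]; omega
  have e2 : pk2 i j / 16777216 % 4096 = i := by rw [pk2]; omega
  have e3 : pk2 i j / 4096 % 4096 = j := by rw [pk2]; omega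
  rw [symval, if_pos e1, e2, e3]

theorem symval_pk3 (f : ℕ → A) {i j l : ℕ} (hi : i < 4096) (hj : j < 4096) (hl : l < 4096) :
    symval f (pk3 i j l) = as (f i) (f j) (f l) := by
  have e0 : ¬ pk3 i j l / 68719476736 = 1 := by rw [pk3]; omega
  have e1 : pk3 i j l / 68719476736 = 2 := by rw [pk3]; omega
  have e2 : pk3 i j l / 16777216 % 4096 = i := by rw [pk3]; omega
  have e3 : pk3 i j l / 4096 % 4096 = j := by rw [pk3]; omega
  have e4 : pk3 i j l % 4096 = l := by rw [pk3]; omega
  rw [symval, if_neg e0, if_pos e1, e2, e3, e4]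

theorem symval_pkp (f : ℕ → A) {i j : ℕ} (hi : i < 4096) (hj : j < 4096) :
    symval f (pkp i j) = f i * f j := by
  have e0 : ¬ pkp i j / 68719476736 = 1 := by rw [pkp]; omega
  have e1 : ¬ pkp i j / 68719476736 = 2 := by rw [pkp]; omega
  have e5 : pkp i j / 68719476736 = 3 := by rw [pkp]; omega
  have e2 : pkp i j / 16777216 % 4096 = i := by rw [pkp]; omega
  have e3 : pkp i j / 4096 % 4096 = j := by rw [pkp]; omega
  rw [symval, if_neg e0, if_neg e1, if_pos e5, e2, e3]

/-- semantics of a push function on a tree: looking up the key `x` advances by its value -/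
def GoodP (f : ℕ → A) (Q : ℕ → A) (psh : ℕ → ℕ → ℕ) (t : TT) : Prop :=
  ∀ x acc1 r, psh (find x t) acc1 = r + 1 → Adv Q (symval f x) acc1 r

theorem look_sound {f : ℕ → A} {Q : ℕ → A} {psh : ℕ → ℕ → ℕ} {t : TT}
    (hg : GoodP f Q psh t) {x acc1 r : ℕ} (h : look psh t x acc1 = r + 1) :
    Adv Q (symval f x) acc1 r := hg x acc1 r h

variable [IsAlternative A] (h2 : ∀ x : A, x + x = 0)
include h2

theorem cm_comm2 (a b : A) : cm a b = cm b a := by
  rw [cm_swap, neg_eq_self2 h2]

theorem as_s12 (a b c : A) : as a b c = as b a c := by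
  rw [as_swap12, neg_eq_self2 h2]

theorem as_s23 (a b c : A) : as a b c = as a c b := by
  rw [as_swap23, neg_eq_self2 h2]

variable {f : ℕ → A} {Q : ℕ → A} {psh : ℕ → ℕ → ℕ} {t : TT} (hg : GoodP f Q psh t)
include hg

theorem t2_sound {i j acc1 r : ℕ} (hi : i < 4095) (hj : j < 4095)
    (h : t2 psh t i j acc1 = r + 1) : Adv Q (cm (f i) (f j)) acc1 r := by
  have e : t2 psh t i j acc1 = Bool.rec (motive := fun _ => ℕ)
    (Bool.rec (motive := fun _ => ℕ) (look psh t (pk2 i j) acc1) (look psh t (pk2 j i) acc1)
      (Nat.ble (Nat.succ j) i)) acc1 (Nat.beq i j) := rfl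
  rw [e] at h
  by_cases h1 : Nat.beq i j = true
  · rw [h1] at h
    have : i = j := Nat.eq_of_beq_eq_true h1
    subst this
    have h' : acc1 = r + 1 := h
    rw [h', cm_self]
    exact Adv.zero r
  · rw [Bool.not_eq_true] at h1
    rw [h1] at h
    by_cases h3 : Nat.ble (Nat.succ j) i = true
    · rw [h3] at h
      have := look_sound hg h
      rw [symval_pk2 f (by omega) (by omega)] at this
      rwa [cm_comm2 h2]
    · rw [Bool.not_eq_true] at h3
      rw [h3] at h
      have := look_sound hg h
      rwa [symval_pk2 f (by omega) (by omega)] at this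

theorem t3s_sound {i j l acc1 r : ℕ} (hi : i < 4095) (hj : j < 4095) (hl : l < 4095)
    (h : t3s psh t i j l acc1 = r + 1) : Adv Q (as (f i) (f j) (f l)) acc1 r := by
  have e : t3s psh t i j l acc1 = Bool.rec (motive := fun _ => ℕ)
    (Bool.rec (motive := fun _ => ℕ) (look psh t (pk3 i j l) acc1)
      (look psh t (pk3 i l j) acc1)
      (Nat.ble (Nat.succ l) j)) (look psh t (pk3 l i j) acc1) (Nat.ble (Nat.succ l) i) := rfl
  rw [e] at h
  by_cases h1 : Nat.ble (Nat.succ l) i = true
  · rw [h1] at h
    have := look_sound hg h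
    rw [symval_pk3 f (by omega) (by omega) (by omega)] at this
    rwa [as_cyc]
  · rw [Bool.not_eq_true] at h1
    rw [h1] at h
    by_cases h3 : Nat.ble (Nat.succ l) j = true
    · rw [h3] at h
      have := look_sound hg h
      rw [symval_pk3 f (by omega) (by omega) (by omega)] at this
      rwa [as_s23 h2]
    · rw [Bool.not_eq_true] at h3
      rw [h3] at h
      have := look_sound hg h
      rwa [symval_pk3 f (by omega) (by omega) (by omega)] at this

theorem t3_sound {i j l acc1 r : ℕ} (hi : i < 4095) (hj : j < 4095) (hl : l < 4095)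
    (h : t3 psh t i j l acc1 = r + 1) : Adv Q (as (f i) (f j) (f l)) acc1 r := by
  have e : t3 psh t i j l acc1 = Bool.rec (motive := fun _ => ℕ)
    (Bool.rec (motive := fun _ => ℕ)
      (Bool.rec (motive := fun _ => ℕ)
        (Bool.rec (motive := fun _ => ℕ) (t3s psh t i j l acc1) (t3s psh t j i l acc1)
          (Nat.ble (Nat.succ j) i)) acc1 (Nat.beq i l)) acc1 (Nat.beq j l)) acc1
        (Nat.beq i j) := rfl
  rw [e] at h
  by_cases h1 : Nat.beq i j = true
  · rw [h1] at h
    have : i = j := Nat.eq_of_beq_eq_true h1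
    subst this
    have h' : acc1 = r + 1 := h
    rw [h', as_self12]
    exact Adv.zero r
  rw [Bool.not_eq_true] at h1
  rw [h1] at h
  by_cases h3 : Nat.beq j l = true
  · rw [h3] at h
    have : j = l := Nat.eq_of_beq_eq_true h3
    subst this
    have h' : acc1 = r + 1 := h
    rw [h', as_self23]
    exact Adv.zero r
  rw [Bool.not_eq_true] at h3
  rw [h3] at h
  by_cases h4 : Nat.beq i l = true
  · rw [h4] at h
    have : i = l := Nat.eq_of_beq_eq_true h4
    subst this
    have h' : acc1 = r + 1 := h
    rw [h', as_self13]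
    exact Adv.zero r
  rw [Bool.not_eq_true] at h4
  rw [h4] at h
  by_cases h5 : Nat.ble (Nat.succ j) i = true
  · rw [h5] at h
    rw [as_s12 h2]
    exact t3s_sound h2 hg hj hi hl h
  · rw [Bool.not_eq_true] at h5
    rw [h5] at h
    exact t3s_sound h2 hg hi hj hl h

theorem tp_sound {i j acc1 r : ℕ} (hi : i < 4095) (hj : j < 4095)
    (h : tp psh t i j acc1 = r + 1) : Adv Q (f i * f j) acc1 r := by
  have e : tp psh t i j acc1 = Bool.rec (motive := fun _ => ℕ) (look psh t (pkp i j) acc1)
    (nb (look psh t (pkp j i) acc1) fun x => look psh t (pk2 j i) (Nat.succ x))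
    (Nat.ble (Nat.succ j) i) := rfl
  rw [e] at h
  by_cases h1 : Nat.ble (Nat.succ j) i = true
  · rw [h1] at h
    obtain ⟨x, hx, h⟩ := nb_eq h
    have h3 := look_sound hg hx
    have h4 := look_sound hg h
    rw [symval_pkp f (by omega) (by omega)] at h3
    rw [symval_pk2 f (by omega) (by omega)] at h4
    have h5 := h3.trans h4
    have h6 : f j * f i + cm (f j) (f i) = f i * f j := by
      rw [cm, ← sub_eq_add2 h2]; abel
    rwa [h6] at h5
  · rw [Bool.not_eq_true] at h1
    rw [h1] at h
    have := look_sound hg h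
    rwa [symval_pkp f (by omega) (by omega)] at this

theorem b2_sound {m n acc1 r : ℕ} (h : b2 psh t m n acc1 = r + 1) :
    Adv Q (cm (lv f m) (lv f n)) acc1 r := by
  refine loopR_sound (F := fun x => cm x (lv f n)) (fun x y => cm_add1 x y _) ?_ h
  intro i a v hi hv
  refine loopR_sound (F := fun x => cm (f i) x) (fun x y => cm_add2 _ x y) ?_ hv
  intro j b w hj hw
  exact t2_sound h2 hg hi hj hw

theorem b3_sound {m n o acc1 r : ℕ} (h : b3 psh t m n o acc1 = r + 1) :
    Adv Q (as (lv f m) (lv f n) (lv f o)) acc1 r := by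
  refine loopR_sound (F := fun x => as x (lv f n) (lv f o))
    (fun x y => as_add1 x y _ _) ?_ h
  intro i a v hi hv
  refine loopR_sound (F := fun x => as (f i) x (lv f o)) (fun x y => as_add2 _ x y _) ?_ hv
  intro j b w hj hw
  refine loopR_sound (F := fun x => as (f i) (f j) x) (fun x y => as_add3 _ _ x y) ?_ hw
  intro l c u hl hu
  exact t3_sound h2 hg hi hj hl hu

theorem bp_sound {m n acc1 r : ℕ} (h : bp psh t m n acc1 = r + 1) :
    Adv Q (lv f m * lv f n) acc1 r := by
  refine loopR_sound (F := fun x => x * (lv f n)) (fun x y => add_mul x y _) ?_ h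
  intro i a v hi hv
  refine loopR_sound (F := fun x => f i * x) (fun x y => mul_add _ x y) ?_ hv
  intro j b w hj hw
  exact tp_sound h2 hg hi hj hw

end

/-! ### semantics of schemas -/

section
variable {A : Type*} [NonUnitalNonAssocRing A]

def Tr.eval (x : ℕ → A) : Tr → A
  | .l i => x i
  | .c s t => cm (s.eval x) (t.eval x)
  | .a s t u => as (s.eval x) (t.eval x) (u.eval x)

def RT.eval (x : ℕ → A) : RT → A
  | .c s t => cm (s.eval x) (t.eval x)
  | .a s t u => as (s.eval x) (t.eval x) (u.eval x)
  | .p s t => s.eval x * t.eval x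

def evalS (x : ℕ → A) : List RT → A
  | [] => 0
  | t :: l => t.eval x + evalS x l

/-- all schemas are identities -/
def Valid (A : Type*) [NonUnitalNonAssocRing A] (S : List (List RT)) : Prop :=
  ∀ s ∈ S, ∀ x : ℕ → A, evalS x s = 0

variable [IsAlternative A] (h2 : ∀ x : A, x + x = 0)
include h2

variable {f : ℕ → A} {low : TT} (hl : GoodP f (lv f) pushL low)
include hl

theorem evN_sound (args : List ℕ) (t : Tr) : ∀ m, evN low args t = m + 1 →
    t.eval (fun i => lv f (getA args i + 1)) = lv f m := by
  induction t with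
  | l i =>
    intro m h
    have : getA args i + 1 = m := Nat.succ_injective h
    rw [Tr.eval, this]
  | c s t ihs iht =>
    intro m h
    have e : evN low args (.c s t) = nb (evN low args s) fun m => nb (evN low args t) fun n =>
      b2 pushL low m n 1 := rfl
    rw [e] at h
    obtain ⟨x, hx, h⟩ := nb_eq h
    obtain ⟨y, hy, h⟩ := nb_eq h
    rw [Tr.eval, ihs x hx, iht y hy]
    obtain ⟨a, ha, h3⟩ := b2_sound h2 hl h
    obtain rfl : a = 0 := by omega
    rw [h3, lv_zero, zero_add]
  | a s t u ihs iht ihu =>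
    intro m h
    have e : evN low args (.a s t u) = nb (evN low args s) fun m => nb (evN low args t) fun n =>
      nb (evN low args u) fun o => b3 pushL low m n o 1 := rfl
    rw [e] at h
    obtain ⟨x, hx, h⟩ := nb_eq h
    obtain ⟨y, hy, h⟩ := nb_eq h
    obtain ⟨z, hz, h⟩ := nb_eq h
    rw [Tr.eval, ihs x hx, iht y hy, ihu z hz]
    obtain ⟨a, ha, h3⟩ := b3_sound h2 hl h
    obtain rfl : a = 0 := by omega
    rw [h3, lv_zero, zero_add]

variable {Q : ℕ → A} {top : TT} (ht : GoodP f Q pushT top)
include ht

theorem evR_sound (args : List ℕ) (t : RT) : ∀ acc1 m, evR low top args t acc1 = m + 1 →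
    Adv Q (t.eval (fun i => lv f (getA args i + 1))) acc1 m := by
  cases t with
  | c s t =>
    intro acc1 m h
    have e : evR low top args (.c s t) acc1 = nb (evN low args s) fun m =>
      nb (evN low args t) fun n => b2 pushT top m n acc1 := rfl
    rw [e] at h
    obtain ⟨x, hx, h⟩ := nb_eq h
    obtain ⟨y, hy, h⟩ := nb_eq h
    rw [RT.eval, evN_sound h2 hl _ _ _ hx, evN_sound h2 hl _ _ _ hy]
    exact b2_sound h2 ht h
  | a s t u =>
    intro acc1 m h
    have e : evR low top args (.a s t u) acc1 = nb (evN low args s) fun m =>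
      nb (evN low args t) fun n =>
      nb (evN low args u) fun o => b3 pushT top m n o acc1 := rfl
    rw [e] at h
    obtain ⟨x, hx, h⟩ := nb_eq h
    obtain ⟨y, hy, h⟩ := nb_eq h
    obtain ⟨z, hz, h⟩ := nb_eq h
    rw [RT.eval, evN_sound h2 hl _ _ _ hx, evN_sound h2 hl _ _ _ hy, evN_sound h2 hl _ _ _ hz]
    exact b3_sound h2 ht h
  | p s t =>
    intro acc1 m h
    have e : evR low top args (.p s t) acc1 = nb (evN low args s) fun m =>
      nb (evN low args t) fun n => bp pushT top m n acc1 := rfl
    rw [e] at h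
    obtain ⟨x, hx, h⟩ := nb_eq h
    obtain ⟨y, hy, h⟩ := nb_eq h
    rw [RT.eval, evN_sound h2 hl _ _ _ hx, evN_sound h2 hl _ _ _ hy]
    exact bp_sound h2 ht h

theorem evS_sound (args : List ℕ) (s : List RT) : ∀ acc1 m, evS low top args s acc1 = m + 1 →
    Adv Q (evalS (fun i => lv f (getA args i + 1)) s) acc1 m := by
  induction s with
  | nil =>
    intro acc1 m h
    have h' : acc1 = m + 1 := h
    rw [evalS, h']
    exact Adv.zero m
  | cons t s ih =>
    intro acc1 m h
    have e : evS low top args (t :: s) acc1 = nb (evR low top args t acc1) fun x =>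
      evS low top args s (Nat.succ x) := rfl
    rw [e] at h
    obtain ⟨x, hx, h⟩ := nb_eq h
    rw [evalS]
    exact (evR_sound h2 hl ht _ _ _ _ hx).trans (ih _ _ h)

end

end H8Alt.C2
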