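import Pool.Agent.H8.Alt.C2.Sound2

/-!
# Soundness of the checker, III
-/

namespace H8Alt.C2

open Finset

set_option linter.unusedSectionVars false

theorem bool2 {a b : Bool} (h : Bool.rec (motive := fun _ => Bool) false a b = true) :
    b = true ∧ a = true := by
  cases b with
  | false => exact absurd h (by simp)
  | true => exact ⟨rfl, h⟩

theorem getS_mem (S : List (List RT)) (n : ℕ) : getS S n ∈ S ∨ getS S n = [] := by
  induction S generalizing n with
  | nil => exact Or.inr rfl
  | cons s S ih =>
    cases n with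
    | zero => exact Or.inl (List.mem_cons_self ..)
    | succ n =>
      have e : getS (s :: S) (n + 1) = getS S n := rfl
      rw [e]
      rcases ih n with h | h
      · exact Or.inl (List.mem_cons_of_mem _ h)
      · exact Or.inr h

/-- good normal form trees -/
def GoodL {A : Type*} [NonUnitalNonAssocRing A] (f : ℕ → A) (t : TT) : Prop :=
  ∀ x L, find x t = L + 1 → symval f x = lv f L

section
variable {A : Type*} [NonUnitalNonAssocRing A]

theorem goodP_of_goodL {f : ℕ → A} {t : TT} (h : GoodL f t) : GoodP f (lv f) pushL t := by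
  intro x acc1 r hx
  obtain ⟨L, hL, h1⟩ := pushL_sound (f := f) hx
  rw [h x L hL]
  exact h1

theorem goodL_of_all {f : ℕ → A} {t : TT}
    (h : t.All fun k v _ => ∀ L, v = L + 1 → symval f k = lv f L) : GoodL f t := by
  intro x L hx
  obtain ⟨c, h1⟩ := find_all h (x := x) (by omega)
  exact h1 L hx

theorem nbB_eq {x : ℕ} {f : ℕ → Bool} (h : nbB x f = true) : ∃ m, x = m + 1 ∧ f m = true := by
  cases x with
  | zero => exact absurd h (by simp [nbB])
  | succ m => exact ⟨m, rfl, h⟩

theorem all_of_checkK {K : ℕ} {t : TT} (h : checkK K t = true) :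
    t.All fun k v _ => v ≤ 8192 ∧ fld K (v - 1) = k := by
  induction t with
  | lf => trivial
  | nd l k v c r ihl ihr =>
    have e : checkK K (.nd l k v c r) = Bool.rec (motive := fun _ => Bool) false
        (Bool.rec (motive := fun _ => Bool) false
          (Bool.rec (motive := fun _ => Bool) false (checkK K r) (checkK K l))
          (Nat.beq (fld K (Nat.pred v)) k))
        (Nat.ble v 8192) := rfl
    rw [e] at h
    obtain ⟨h1, h⟩ := bool2 h
    obtain ⟨h2, h⟩ := bool2 h
    obtain ⟨h3, h4⟩ := bool2 h
    exact ⟨⟨Nat.le_of_ble_eq_true h1, Nat.eq_of_beq_eq_true h2⟩, ihl h3, ihr h4⟩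

variable [IsAlternative A] (h2 : ∀ x : A, x + x = 0)
include h2

theorem goodP_of_checkK (f : ℕ → A) {K : ℕ} {t : TT} (h : checkK K t = true) :
    GoodP f (er 8192 (fun i => symval f (fld K i))) pushT t := by
  intro x acc1 r hx
  have hne : find x t ≠ 0 := by
    intro h0
    rw [h0] at hx
    exact absurd hx (by simp [pushT, nb])
  obtain ⟨c, h3, h4⟩ := find_all (all_of_checkK h) hne
  obtain ⟨i, hi, h5⟩ := pushT_sound h2 (M := 8192)
    (k := fun i => symval f (fld K i)) h3 hx
  rw [hi] at h4
  have h6 : fld K i = x := h4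
  rw [← h6]
  exact h5

theorem checkI_sound {S : List (List RT)} (hS : Valid A S) {f : ℕ → A} {low : TT}
    (hl : GoodL f low) {Q : ℕ → A} (hQ : Q 0 = 0) {top : TT} (ht : GoodP f Q pushT top) {it : IT}
    (h : checkI S low top it = true) : it.All fun _ _ _ row => Q row = 0 := by
  induction it with
  | lf => trivial
  | nd l i s args row r ihl ihr =>
    have e : checkI S low top (.nd l i s args row r) = Bool.rec (motive := fun _ => Bool) false
        (Bool.rec (motive := fun _ => Bool) false (checkI S low top r) (checkI S low top l))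
        (Nat.beq (evS low top args (getS S s) 1) (Nat.succ row)) := rfl
    rw [e] at h
    obtain ⟨h1, h⟩ := bool2 h
    obtain ⟨h3, h4⟩ := bool2 h
    refine ⟨?_, ihl h3, ihr h4⟩
    have h5 := Nat.eq_of_beq_eq_true h1
    change Q row = 0
    obtain ⟨a, ha, h6⟩ := evS_sound h2 (goodP_of_goodL hl) ht _ _ _ _ h5
    obtain rfl : a = 0 := by omega
    rw [h6, hQ, zero_add]
    rcases getS_mem S s with h7 | h7
    · exact hS _ h7 _
    · rw [h7, evalS]

theorem xorRows_sound {M : ℕ} {k : ℕ → A} {it : IT}
    (hi : it.All fun _ _ _ row => er M k row = 0) {c r : ℕ}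
    (h : xorRows it c = r + 1) : er M k r = 0 := by
  have hf : ∀ i acc1 v, i < 4095 →
      (nb (findI i it) fun v => nb acc1 fun a => Nat.succ (Nat.xor a v)) = v + 1 →
      Adv (er M k) ((fun _ => (0 : A)) ((fun _ => (0 : A)) i)) acc1 v := by
    intro i acc1 v _ hv
    obtain ⟨w, hw, hv⟩ := nb_eq hv
    obtain ⟨b, hb, hv⟩ := nb_eq hv
    have h4 : b ^^^ w = v := Nat.succ_injective hv
    obtain ⟨_, _, h3⟩ := findI_all hi hw
    exact ⟨b, hb, by rw [← h4, er_xor h2, h3]⟩
  obtain ⟨a, ha, h3⟩ := loopR_sound (g := fun _ => (0 : A)) (F := fun _ => (0 : A))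
    (Q := er M k) (by intros; simp) hf h
  obtain rfl : a = 0 := by omega
  rw [h3, er_zero, zero_add]

theorem defAdd_sound {DK : ℕ} {gen : ℕ → A} (hD : validD DK 64 = true) {Q : ℕ → A}
    {top : TT} (ht : GoodP (val DK gen) Q pushT top) {L acc1 w : ℕ}
    (h : defAdd DK top L acc1 = w + 1) : Adv Q (lv (val DK gen) L) acc1 w := by
  refine loopR_sound (F := fun x => x) (fun _ _ => rfl) ?_ h
  intro g b v hg hv
  by_cases h6 : Nat.ble 6 g = true
  · rw [h6] at hv
    have h7 := Nat.le_of_ble_eq_true h6
    rw [val_def gen h7 (validD_sound hD g h7 (by omega))]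
    exact look_sound ht hv
  · rw [Bool.not_eq_true] at h6
    rw [h6] at hv
    exact absurd hv (by simp)

theorem checkN_sound {DK : ℕ} {gen : ℕ → A} (hD : validD DK 64 = true) {M : ℕ} {k : ℕ → A}
    {top : TT} (ht : GoodP (val DK gen) (er M k) pushT top) {it : IT}
    (hi : it.All fun _ _ _ row => er M k row = 0) {x L c : ℕ}
    (h : checkN DK top it x L c = true) :
    symval (val DK gen) x = lv (val DK gen) L := by
  have e : checkN DK top it x L c = Bool.rec (motive := fun _ => Bool)
    (Nat.beq
      (nb (xorRows it c) fun r => nb (defAdd DK top L (Nat.succ r)) fun w =>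
        look pushT top x (Nat.succ w)) 1)
    (Bool.rec (motive := fun _ => Bool) false
      (Bool.rec (motive := fun _ => Bool) false
        (Nat.beq (fld DK (Nat.pred L)) x)
        (Nat.ble L 4095))
      (Nat.ble 7 L))
    (Nat.beq c 0) := rfl
  rw [e] at h
  by_cases hc : Nat.beq c 0 = true
  · rw [hc] at h
    obtain ⟨h3, h⟩ := bool2 h
    obtain ⟨h4, h5⟩ := bool2 h
    have h6 := Nat.le_of_ble_eq_true h3
    have h7 := Nat.le_of_ble_eq_true h4
    have h8 : fld DK (L - 1) = x := Nat.eq_of_beq_eq_true h5
    rw [lv_single _ (by omega) h7,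
      val_def gen (by omega) (validD_sound hD (L - 1) (by omega) (by omega)), h8]
  · rw [Bool.not_eq_true] at hc
    rw [hc] at h
    have h3 := Nat.eq_of_beq_eq_true h
    have h3' : _ = 0 + 1 := h3
    obtain ⟨r, hr, h3'⟩ := nb_eq h3'
    obtain ⟨w, hw, h3'⟩ := nb_eq h3'
    have h7 := xorRows_sound h2 hi hr
    have h8 := (defAdd_sound h2 hD ht hw).trans (look_sound ht h3')
    obtain ⟨a, ha, h9⟩ := h8
    obtain rfl : r = a := by
      have : r + 1 = a + 1 := ha
      omega
    rw [er_zero, h7, zero_add, add_comm, ← sub_eq_add2 h2] at h9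
    exact sub_eq_zero.mp h9.symm

theorem checkC_sound {DK : ℕ} {gen : ℕ → A} (hD : validD DK 64 = true) {M : ℕ} {k : ℕ → A}
    {top : TT} (ht : GoodP (val DK gen) (er M k) pushT top) {it : IT}
    (hi : it.All fun _ _ _ row => er M k row = 0) {t : TT} (h : checkC DK top it t = true) :
    t.All fun x v _ => ∀ L, v = L + 1 → symval (val DK gen) x = lv (val DK gen) L := by
  induction t with
  | lf => trivial
  | nd l x v c r ihl ihr =>
    have e : checkC DK top it (.nd l x v c r) = Bool.rec (motive := fun _ => Bool) false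
        (Bool.rec (motive := fun _ => Bool) false (checkC DK top it r) (checkC DK top it l))
        (nbB v fun L => checkN DK top it x L c) := rfl
    rw [e] at h
    obtain ⟨h3, h⟩ := bool2 h
    obtain ⟨h4, h5⟩ := bool2 h
    obtain ⟨m, hm, h3⟩ := nbB_eq h3
    refine ⟨?_, ihl h4, ihr h5⟩
    intro m' hm'
    obtain rfl : m = m' := by omega
    exact checkN_sound h2 hD ht hi h3

omit h2 [IsAlternative A] in
theorem findL_sound {f : ℕ → A} {ts : List TT} (h : ∀ t ∈ ts, GoodL f t) {x : ℕ} {m : ℕ}
    (hx : findL x ts = m + 1) : symval f x = lv f m := by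
  induction ts with
  | nil => exact absurd hx (by simp [findL])
  | cons t ts ih =>
    have e : findL x (t :: ts) =
      Nat.rec (motive := fun _ => ℕ) (findL x ts) (fun n _ => Nat.succ n) (find x t) := rfl
    rw [e] at hx
    rcases hf : find x t with _ | n
    · rw [hf] at hx
      exact ih (fun t ht => h t (List.mem_cons_of_mem _ ht)) hx
    · rw [hf] at hx
      have h1 : n + 1 = m + 1 := hx
      exact h t (List.mem_cons_self ..) x m (by omega)

omit h2 [IsAlternative A] in
theorem checkU_sound {f : ℕ → A} {ts : List TT} (h : ∀ t ∈ ts, GoodL f t) {t : TT}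
    (hu : checkU ts t = true) : GoodL f t := by
  apply goodL_of_all
  induction t with
  | lf => trivial
  | nd l x v c r ihl ihr =>
    have e : checkU ts (.nd l x v c r) = Bool.rec (motive := fun _ => Bool) false
        (Bool.rec (motive := fun _ => Bool) false
          (Bool.rec (motive := fun _ => Bool) false (checkU ts r) (checkU ts l))
          (Nat.beq (findL x ts) v))
        (Nat.ble 1 v) := rfl
    rw [e] at hu
    obtain ⟨h1, hu⟩ := bool2 hu
    obtain ⟨h3, hu⟩ := bool2 hu
    obtain ⟨h4, h5⟩ := bool2 hu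
    have h7 := Nat.eq_of_beq_eq_true h3
    refine ⟨?_, ihl h4, ihr h5⟩
    intro m hm
    exact findL_sound h (by omega)

/-- one stage: all tables of one multidegree -/
theorem stage_sound {S : List (List RT)} (hS : Valid A S) {DK K : ℕ} {gen : ℕ → A}
    (hD : validD DK 64 = true) {low top : TT} (hl : GoodL (val DK gen) low)
    (hK : checkK K top = true) {it : IT} (hI : checkI S low top it = true) {t : TT}
    (hC : checkC DK top it t = true) : GoodL (val DK gen) t := by
  have ht := goodP_of_checkK h2 (val DK gen) hK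
  exact goodL_of_all (checkC_sound h2 hD ht (checkI_sound h2 hS hl (er_zero _ _) ht hI) hC)

/-- the final check: a combination of rows equals the row of the last schema -/
theorem final_sound {S : List (List RT)} (hS : Valid A S) {DK K : ℕ} {gen : ℕ → A}
    {low top : TT} (hl : GoodL (val DK gen) low)
    (hK : checkK K top = true) {it : IT} (hI : checkI S low top it = true) {args : List ℕ}
    {H : List RT} {c w : ℕ} (h1 : evS low top args H 1 = w + 1)
    (h3 : xorRows it c = w + 1) :
    evalS (fun i => lv (val DK gen) (getA args i + 1)) H = 0 := by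
  have ht := goodP_of_checkK h2 (val DK gen) hK
  obtain ⟨a, ha, h4⟩ := evS_sound h2 (goodP_of_goodL hl) ht _ _ _ _ h1
  obtain rfl : a = 0 := by omega
  have h5 := xorRows_sound h2 (checkI_sound h2 hS hl (er_zero _ _) ht hI) h3
  rw [h5, er_zero, zero_add] at h4
  exact h4.symm

end

end H8Alt.C2
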